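import Pool.Agent.Helper99.SZ.Stmts2

/-! # Module PD2: the `P`-adic size of the interpolation determinant, second version -/

set_option autoImplicit false

namespace Pool.Helper99.SZ

open NumberField

theorem pd2_rat {L : Type} [Field L] [NumberField L] (P : Ideal (𝓞 L)) (hP : P.IsPrime) (p : ℕ)
    (hp : p.Prime) (hpP : (p : 𝓞 L) ∈ P) (x : ℚ) (hx : pint p x) : Dv P 0 ((x : ℚ) : L) := by
  refine ⟨((x.num : ℤ) : 𝓞 L), ((x.den : ℕ) : 𝓞 L), ?_, ?_, ?_⟩
  · intro hd
    have hc : IsCoprime (p : ℤ) (x.den : ℤ) := by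
      rw [Int.isCoprime_iff_gcd_eq_one, Int.gcd_natCast_natCast]
      exact (Nat.Prime.coprime_iff_not_dvd hp).2 hx
    obtain ⟨a, b, hab⟩ := hc
    apply hP.ne_top
    rw [Ideal.eq_top_iff_one]
    have h1 : (1 : 𝓞 L) = (a : 𝓞 L) * ((p : ℕ) : 𝓞 L) + (b : 𝓞 L) * ((x.den : ℕ) : 𝓞 L) := by
      have h2 := congrArg (Int.cast : ℤ → 𝓞 L) hab
      push_cast at h2
      exact h2.symm
    rw [h1]
    exact P.add_mem (P.mul_mem_left _ hpP) (P.mul_mem_left _ hd)
  · rw [pow_zero, Ideal.one_eq_top]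
    trivial
  · have h1 := Rat.mul_den_eq_num x
    have h2 := congrArg (Rat.cast : ℚ → L) h1
    push_cast at h2
    have e1 : ((((x.den : ℕ) : 𝓞 L)) : L) = ((x.den : ℕ) : L) := by simp
    have e2 : ((((x.num : ℤ) : 𝓞 L)) : L) = ((x.num : ℤ) : L) := by simp
    rw [e1, e2]
    exact h2

/-- the subring of the elements integral at `P` -/
theorem pd2_det (hDV : ST_DVB) {L : Type} [Field L] [NumberField L] (P : Ideal (𝓞 L))
    (hP : P.IsPrime) (hb : P ≠ ⊥) {ι : Type} [Fintype ι] [DecidableEq ι] (M : Matrix ι ι L)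
    (hM : ∀ i j, Dv P 0 (M i j)) : Dv P 0 M.det := by
  obtain ⟨d1, d2, d3, d4, d5, d6, d7, d8, d9⟩ := hDV L P hP hb
  have hint : ∀ m : ℤ, Dv P 0 (m : L) := by
    intro m
    have := d1 (m : 𝓞 L)
    simpa using this
  let S : Subring L :=
    { carrier := {x | Dv P 0 x}
      mul_mem' := by
        intro a b ha hb
        have := d5 0 0 a b ha hb
        exact this
      one_mem' := by
        have := hint 1
        rw [Int.cast_one] at this
        exact this
      add_mem' := by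
        intro a b ha hb
        exact d3 0 a b ha hb
      zero_mem' := by
        have := hint 0
        rw [Int.cast_zero] at this
        exact this
      neg_mem' := by
        intro a ha
        exact d4 0 a ha }
  have h1 : M.det ∈ S := by
    rw [Matrix.det_apply']
    apply S.sum_mem
    intro σ _
    apply S.mul_mem
    · exact intCast_mem S _
    · apply S.prod_mem
      intro i _
      exact hM _ _
  exact h1

theorem pd2_x (hDV : ST_DVB) {L : Type} [Field L] [NumberField L] (P : Ideal (𝓞 L))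
    (hP : P.IsPrime) (hb : P ≠ ⊥) (n T : ℕ) (hT : 1 ≤ T) (g : Fin n → L) (u : L) (c z : Fin n → ℤ)
    (w : L) (hg : ∀ i, Dv P 1 (g i - 1)) (hu : Dv P 1 (u - 1))
    (hgu : ∀ i, Dv P T (g i - u ^ (c i))) (hw : Dv P T (w - 1)) :
    Dv P T ((∏ i, g i ^ (z i)) * w - u ^ (∑ i, c i * z i)) := by
  obtain ⟨d1, d2, d3, d4, d5, d6, d7, d8, d9⟩ := hDV L P hP hb
  have hu0 : u ≠ 0 := (d6 u hu).1
  have hupow : ∀ k : ℤ, Dv P 0 (u ^ k) := fun k => (d6 (u ^ k) (d7 1 u k le_rfl hu)).2.1
  set h : Fin n → L := fun i => g i * (u ^ (c i))⁻¹ with hh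
  have hh1 : ∀ i, Dv P T (h i - 1) := by
    intro i
    have e1 : h i - 1 = (g i - u ^ (c i)) * u ^ (-(c i)) := by
      rw [hh, zpow_neg]
      have : u ^ (c i) ≠ 0 := zpow_ne_zero _ hu0
      field_simp
    rw [e1]
    have := d5 T 0 _ _ (hgu i) (hupow (-(c i)))
    rwa [add_zero] at this
  have hone : Dv P T ((1 : L) - 1) := by
    have h2 := d7 T w 0 hT hw
    rw [zpow_zero] at h2
    exact h2
  have hprod : ∀ s : Finset (Fin n), Dv P T ((∏ i ∈ s, h i ^ (z i)) - 1) := by
    intro s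
    classical
    induction s using Finset.induction_on with
    | empty => rw [Finset.prod_empty]; exact hone
    | insert i s hi ih =>
      rw [Finset.prod_insert hi]
      exact d8 T _ _ hT (d7 T _ _ hT (hh1 i)) ih
  have hall : Dv P T ((∏ i, h i ^ (z i)) * w - 1) := d8 T _ _ hT (hprod _) hw
  have e2 : (∏ i, g i ^ (z i)) * w - u ^ (∑ i, c i * z i) =
      ((∏ i, h i ^ (z i)) * w - 1) * u ^ (∑ i, c i * z i) := by
    have e3 : (∏ i, g i ^ (z i)) = (∏ i, h i ^ (z i)) * u ^ (∑ i, c i * z i) := by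
      have e4 : u ^ (∑ i, c i * z i) = ∏ i, (u ^ (c i)) ^ (z i) := by
        have e5 : ∀ s : Finset (Fin n), u ^ (∑ i ∈ s, c i * z i) =
            ∏ i ∈ s, (u ^ (c i)) ^ (z i) := by
          intro s
          classical
          induction s using Finset.induction_on with
          | empty => simp
          | insert i s hi ih =>
            rw [Finset.prod_insert hi, Finset.sum_insert hi, zpow_add₀ hu0, ih, zpow_mul]
        exact e5 _
      rw [e4, ← Finset.prod_mul_distrib]
      apply Finset.prod_congr rfl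
      intro i _
      rw [← mul_zpow, hh]
      have : u ^ (c i) ≠ 0 := zpow_ne_zero _ hu0
      simp only [inv_mul_cancel_right₀ this]
    rw [e3]
    ring
  rw [e2]
  have := d5 T 0 _ _ hall (hupow (∑ i, c i * z i))
  rwa [add_zero] at this

theorem st_PD2 (hPDG : ST_PDG) (hCMB : ST_CMB) (hCHG : ST_CHG) (hPX3 : ST_PX3) (hSHP : ST_SHP)
    (hDV : ST_DVB) : ST_PD2 := by
  intro L _ _ P hP hbot p hp hpP n v K Lc T t hv V hV J hJ z hz g hg hOD w hT hw hK hLc ht1 ht2
  obtain ⟨u, c, hu, hgu⟩ := hOD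
  obtain ⟨j1, u', y, α, e, hu', hy, hα, he, hlin⟩ := hSHP L P hP hbot p hp hpP n v hv V hV J hJ
    (Sx v K × Fin Lc) z hz u c hu
  obtain ⟨β, hβ, hchg⟩ := hCHG p hp v K j1 α e hα he
  set x : Sx v K × Fin Lc → L := fun r => (∏ i, g i ^ (z r i)) * w r with hx
  have hxd : ∀ r, Dv P T (x r - u' ^ (y r)) := by
    intro r
    rw [hy r]
    exact pd2_x hDV P hP hbot n T hT g u c (z r) (w r) hg hu hgu (hw r)
  obtain ⟨W, hW1, hW2⟩ := hPX3 L P hP hbot v K T j1 (Sx v K × Fin Lc) (fun r i => z r (J i)) y x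
    u' hu' hT hxd
  set D : Matrix (Sx v K × Fin Lc) (Sx v K × Fin Lc) L := Matrix.of (fun r j =>
    ((y r : ℤ) : L) ^ (j.1.1 j1 : ℕ) *
      (∏ i ∈ Finset.univ.erase j1, ((z r (J i) : ℤ) : L) ^ (j.1.1 i : ℕ)) *
        x r ^ (j.2 : ℕ)) with hD
  set B : Matrix (Sx v K × Fin Lc) (Sx v K × Fin Lc) L := Matrix.of (fun j' j =>
    if j.2 = j'.2 then ((β j.1 j'.1 : ℚ) : L) else 0) with hB
  have hfac : (Matrix.of (fun r j : Sx v K × Fin Lc =>
      (∏ i, ((z r (J i) : ℤ) : L) ^ (j.1.1 i : ℕ)) *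
        ((∏ i, g i ^ (z r i)) * w r) ^ (j.2 : ℕ))) = D * B := by
    ext r j
    rw [Matrix.mul_apply, Matrix.of_apply]
    have h1 := hchg (fun i => ((z r (J i) : ℤ) : ℚ)) (y r : ℚ) (by
      have := hlin r
      exact this) j.1
    have h2 := congrArg (Rat.cast : ℚ → L) h1
    push_cast at h2
    rw [h2, Fintype.sum_prod_type, Finset.sum_mul]
    apply Finset.sum_congr rfl
    intro k' _
    rw [Finset.sum_eq_single j.2]
    · simp only [hD, hB, Matrix.of_apply, if_true]
      ring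
    · intro l' _ hl'
      simp only [hB, Matrix.of_apply]
      rw [if_neg (Ne.symm hl'), mul_zero]
    · intro h
      exact absurd (Finset.mem_univ _) h
  rw [hfac, Matrix.det_mul]
  obtain ⟨d1, d2, d3, d4, d5, d6, d7, d8, d9⟩ := hDV L P hP hbot
  have hBdet : Dv P 0 B.det := by
    apply pd2_det hDV P hP hbot
    intro i j
    simp only [hB, Matrix.of_apply]
    split_ifs
    · exact pd2_rat P hP p hp hpP _ (hβ _ _)
    · have := d1 0
      simpa using this
  have hgrp : ∀ k : Sx v K, ((Function.update k.1 j1 0 j1 : Fin (K + 1)) : ℕ) = 0 ∧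
      ∑ i, ((Function.update k.1 j1 0 i : Fin (K + 1)) : ℕ) ≤ K := by
    intro k
    refine ⟨by simp, le_trans (Finset.sum_le_sum ?_) k.2⟩
    intro i _
    by_cases hi : i = j1
    · subst hi
      simp
    · rw [Function.update_of_ne hi]
  set grp : Sx v K × Fin Lc → Sb v K j1 := fun r => ⟨Function.update r.1.1 j1 0, hgrp r.1⟩
    with hgrpd
  have hDdet : Dv P t D.det := by
    apply hPDG L P hP hbot (Sx v K × Fin Lc) (Sb v K j1) D K T t grp
      (fun r => (r.1.1 j1 : ℕ)) W
    · intro r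
      exact Nat.lt_succ_iff.1 (r.1.1 j1).2
    · exact hW1
    · intro n' hn'
      exact hCMB v K Lc t j1 hK hLc ht1 n' hn'
    · exact ht2
    · intro j
      obtain ⟨s, cc, a, ww, ω, err, q1, q2, q3, q4, q5⟩ := hW2 j.1 (grp j) (by
        intro i hi
        simp only [hgrpd]
        rw [Function.update_of_ne hi]) (j.2 : ℕ)
      exact ⟨s, cc, a, ww, ω, err, q1, q2, q3, q4, fun r => by
        have := q5 r
        simp only [hD, Matrix.of_apply]
        exact this⟩
  have := d5 t 0 _ _ hDdet hBdet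
  rwa [add_zero] at this

end Pool.Helper99.SZ
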